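import Pool.Agent.Lib.helper21.Shell

set_option autoImplicit false

namespace Pool.Agent.Results.MP_88aa81_an.Punctured

open MeasureTheory Set Real Metric Pool.Agent.Lib.Helper21.Shell

/-- In `ℝ³` there is a non-empty open set of finite volume with the mean-value property which is not an annulus. -/
theorem result : ∃ Ω : Set (EuclideanSpace ℝ (Fin 3)), IsOpen Ω ∧ Ω.Nonempty ∧ volume Ω < ⊤ ∧
    (∀ x ∉ Ω, ⨍⁻ y in Ω, ENNReal.ofReal ‖x - y‖⁻¹ ∂volume =
      ⨍⁻ θ, ENNReal.ofReal ‖x - θ.1‖⁻¹ ∂(volume : Measure (EuclideanSpace ℝ (Fin 3))).toSphere) ∧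
    ¬ ∃ r₁ r₂ : ℝ, Ω = {x | r₁ < ‖x‖ ∧ ‖x‖ < r₂} := by
  obtain ⟨p, hp⟩ : ∃ p : E, ‖p‖ = 11 / 16 := ⟨EuclideanSpace.single 0 (11 / 16), by simp⟩
  have p0 : p ≠ 0 := fun e => by simp [e] at hp; norm_num at hp
  have z : (0 : E) ∈ ball (0 : E) (11 / 8) \ {p} := ⟨mem_ball_self (by norm_num), p0.symm⟩
  refine ⟨ball 0 (11 / 8) \ {p}, isOpen_ball.sdiff isClosed_singleton, ⟨0, z⟩,
    (measure_mono sdiff_subset).trans_lt measure_ball_lt_top, fun x hx => ?_, fun ⟨r₁, r₂, e⟩ => ?_⟩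
  · have c : ‖x‖ = 11 / 16 ∨ 11 / 8 ≤ ‖x‖ := by
      by_cases d : x = p
      · exact Or.inl (d ▸ hp)
      · exact Or.inr (not_lt.1 fun t => hx ⟨mem_ball_zero_iff.2 t, d⟩)
    have x0 : x ≠ 0 := norm_pos_iff.1 (by rcases c with c | c <;> linarith)
    rw [setLAverage_congr (sdiff_null_ae_eq_self (measure_singleton p)), setLAverage_eq, ballInt x0 (by norm_num),
      sphere x0 (by rcases c with c | c <;> linarith), EuclideanSpace.volume_ball_fin_three, ← ENNReal.ofReal_pow (by norm_num),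
      ← ENNReal.ofReal_mul (by norm_num), ← ENNReal.ofReal_div_of_pos (by positivity)]
    congr 1
    rcases c with c | c
    · rw [c, if_pos (by norm_num), max_eq_right (by norm_num)]; field_simp; norm_num
    · rw [if_neg c.not_gt, max_eq_left (by linarith)]; field_simp
  · have h1 : r₁ < ‖(0 : E)‖ ∧ _ := e.subset z
    have h2 : _ ∧ ‖-p‖ < r₂ := e.subset ⟨by rw [mem_ball_zero_iff, norm_neg, hp]; norm_num, fun t => p0
      ((smul_eq_zero_iff_right (two_ne_zero' ℝ)).1 (by rw [two_smul]; exact neg_eq_iff_add_eq_zero.1 t))⟩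
    exact (e.symm.subset ⟨h1.1.trans_le (by simp), by simpa using h2.2⟩).2 rfl

end Pool.Agent.Results.MP_88aa81_an.Punctured
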